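import Pool.Agent.H37.UMD.Stmts
import Pool.Agent.H23.UMC.Rot

set_option autoImplicit false

open MeasureTheory ProbabilityTheory

namespace Pool.UMD

open Pool.UMC.Gs (chi kk)

lemma REF_chi (a : ℝ × ℝ) (A : Mat) (e : ℝ × ℝ) (g : ℝ) (z : ℝ × ℝ) :
    a + g • A.stp e + (A.con e).ap z = a + A.ap (chi e.1 e.2 g z) := by
  ext
  · simp only [Mat.stp, Mat.con, Mat.ap, chi, kk, Prod.fst_add, Prod.smul_fst, smul_eq_mul]
    ring
  · simp only [Mat.stp, Mat.con, Mat.ap, chi, kk, Prod.snd_add, Prod.smul_snd, smul_eq_mul]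
    ring

lemma REF_meas (f : ℝ × ℝ → ℝ) (M : ℝ) (hf : Bd f M) (a : ℝ × ℝ) (A : Mat) :
    Measurable (fun z => f (a + A.ap z)) ∧ ∀ z, |f (a + A.ap z)| ≤ M := by
  refine ⟨hf.1.comp ?_, fun z => hf.2 _⟩
  unfold Mat.ap
  fun_prop

theorem sRef : SRef := by
  intro f M hf a A e he
  obtain ⟨h1, h2⟩ := REF_meas f M hf a A
  have h := Pool.UMC.Gs.refine_mean e.1 e.2 he
    (Pool.UMC.Gs.integrable_of_bdd (μ := Pool.UMC.Gs.gam2) h1 h2)
  unfold mu
  simp only [REF_chi]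
  exact h.symm

end Pool.UMD
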