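import Pool.Agent.H23.UMD.REF

set_option autoImplicit false

open MeasureTheory ProbabilityTheory

namespace Pool.UMD

theorem sRfz : SRfz := by
  intro f M hf a A e he
  obtain ⟨h1, h2⟩ := REF_meas f M hf a A
  have k1 := Pool.UMC.Gs.refine_fst e.1 e.2 he h1 h2
  have k2 := Pool.UMC.Gs.refine_snd e.1 e.2 he h1 h2
  have k3 := Pool.UMC.Gs.refine_g e.1 e.2 he h1 h2
  unfold mz mu rap dot
  simp only [REF_chi]
  refine ⟨k1, k2, ?_⟩
  rw [k3]
  rfl

end Pool.UMD
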