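import Pool.Agent.H37.UMD.Stmts
import Pool.Agent.H23.UMC.Rot

set_option autoImplicit false

open MeasureTheory ProbabilityTheory

namespace Pool.UMD

theorem sRot : SRot := by
  intro c s h
  let R : (ℝ × ℝ) →L[ℝ] (ℝ × ℝ) :=
    (c • ContinuousLinearMap.fst ℝ ℝ ℝ + s • ContinuousLinearMap.snd ℝ ℝ ℝ).prod
      ((-s) • ContinuousLinearMap.fst ℝ ℝ ℝ + c • ContinuousLinearMap.snd ℝ ℝ ℝ)
  have hR : (fun p : ℝ × ℝ => (c * p.1 + s * p.2, -s * p.1 + c * p.2)) = R := by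
    ext p <;> simp [R]
  rw [hR]
  refine Measure.ext_of_charFunDual ?_
  ext L
  have hg := fun L : StrongDual ℝ ℝ => Pool.UMC.Gs.charFunDual_gam L
  rw [charFunDual_map, charFunDual_prod, charFunDual_prod, hg, hg, hg, hg, ← Complex.exp_add,
    ← Complex.exp_add]
  congr 1
  have h1 : L (c, -s) = c * L (1, 0) - s * L (0, 1) := by
    have : ((c, -s) : ℝ × ℝ) = c • (1, 0) + (-s) • (0, 1) := by ext <;> simp
    rw [this, map_add, map_smul, map_smul]
    simp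
    ring
  have h2 : L (s, c) = s * L (1, 0) + c * L (0, 1) := by
    have : ((s, c) : ℝ × ℝ) = s • (1, 0) + c • (0, 1) := by ext <;> simp
    rw [this, map_add, map_smul, map_smul]
    simp
  have h3 : (L.comp R).comp (ContinuousLinearMap.inl ℝ ℝ ℝ) 1 = c * L (1, 0) - s * L (0, 1) := by
    simp [R, h1]
  have h4 : (L.comp R).comp (ContinuousLinearMap.inr ℝ ℝ ℝ) 1 = s * L (1, 0) + c * L (0, 1) := by
    simp [R, h2]
  have h5 : L.comp (ContinuousLinearMap.inl ℝ ℝ ℝ) 1 = L (1, 0) := by simp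
  have h6 : L.comp (ContinuousLinearMap.inr ℝ ℝ ℝ) 1 = L (0, 1) := by simp
  rw [h3, h4, h5, h6]
  push_cast
  have hc : (c : ℂ) ^ 2 + (s : ℂ) ^ 2 = 1 := by exact_mod_cast h
  linear_combination (-(((L (1, 0) : ℝ) : ℂ) ^ 2 + ((L (0, 1) : ℝ) : ℂ) ^ 2) / 2) * hc

end Pool.UMD
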