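import Pool.Agent.H37.UMD.Stmts
import Pool.Agent.H23.UMC.Rot

set_option autoImplicit false

open MeasureTheory ProbabilityTheory Set

namespace Pool.UMD

lemma STE_fin1 : (g1.prod (volume : Measure ℝ)) {q : ℝ × ℝ | 0 < q.2 ∧ q.2 ≤ q.1} ≠ ⊤ := by
  have hm : MeasurableSet {q : ℝ × ℝ | 0 < q.2 ∧ q.2 ≤ q.1} :=
    (measurableSet_lt measurable_const measurable_snd).inter
      (measurableSet_le measurable_snd measurable_fst)
  rw [Measure.prod_apply hm]
  have h1 : ∀ g : ℝ, (volume : Measure ℝ) (Prod.mk g ⁻¹' {q : ℝ × ℝ | 0 < q.2 ∧ q.2 ≤ q.1}) ≤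
      ‖g‖ₑ := by
    intro g
    have : Prod.mk g ⁻¹' {q : ℝ × ℝ | 0 < q.2 ∧ q.2 ≤ q.1} = Ioc 0 g := by
      ext s
      simp
    rw [this, Real.volume_Ioc, sub_zero]
    exact Real.ofReal_le_enorm g
  refine ne_of_lt (lt_of_le_of_lt (lintegral_mono h1) ?_)
  exact Pool.UMC.Gs.integrable_id_gam.2

lemma STE_fin2 : (g1.prod (volume : Measure ℝ)) {q : ℝ × ℝ | q.1 < q.2 ∧ q.2 ≤ 0} ≠ ⊤ := by
  have hm : MeasurableSet {q : ℝ × ℝ | q.1 < q.2 ∧ q.2 ≤ 0} :=
    (measurableSet_lt measurable_fst measurable_snd).inter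
      (measurableSet_le measurable_snd measurable_const)
  rw [Measure.prod_apply hm]
  have h1 : ∀ g : ℝ, (volume : Measure ℝ) (Prod.mk g ⁻¹' {q : ℝ × ℝ | q.1 < q.2 ∧ q.2 ≤ 0}) ≤
      ‖g‖ₑ := by
    intro g
    have : Prod.mk g ⁻¹' {q : ℝ × ℝ | q.1 < q.2 ∧ q.2 ≤ 0} = Ioc g 0 := by
      ext s
      simp
    rw [this, Real.volume_Ioc, zero_sub]
    have := Real.ofReal_le_enorm (-g)
    rwa [enorm_neg] at this
  refine ne_of_lt (lt_of_le_of_lt (lintegral_mono h1) ?_)
  exact Pool.UMC.Gs.integrable_id_gam.2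

lemma STE_swap (S : Set (ℝ × ℝ)) (hS : MeasurableSet S)
    (hf : (g1.prod (volume : Measure ℝ)) S ≠ ⊤) (w r' : ℝ → ℝ) (M : ℝ) (hw : Measurable w)
    (hr : Measurable r') (hwM : ∀ g, |w g| ≤ M) (hrM : ∀ g, |r' g| ≤ M) :
    Integrable (fun g => ∫ s, S.indicator (fun q => w q.1 * r' q.2) (g, s)) g1 ∧
    Integrable (fun s => ∫ g, S.indicator (fun q => w q.1 * r' q.2) (g, s) ∂g1) ∧
    ∫ g, (∫ s, S.indicator (fun q => w q.1 * r' q.2) (g, s)) ∂g1 =
      ∫ s, (∫ g, S.indicator (fun q => w q.1 * r' q.2) (g, s) ∂g1) := by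
  have hI : Integrable (S.indicator (fun q : ℝ × ℝ => w q.1 * r' q.2))
      (g1.prod (volume : Measure ℝ)) := by
    rw [integrable_indicator_iff hS]
    refine Measure.integrableOn_of_bounded (M := M * M) hf ?_ ?_
    · exact ((hw.comp measurable_fst).mul (hr.comp measurable_snd)).aestronglyMeasurable
    · refine Filter.Eventually.of_forall fun q => ?_
      rw [Real.norm_eq_abs, abs_mul]
      have := (abs_nonneg (w q.1)).trans (hwM q.1)
      exact mul_le_mul (hwM _) (hrM _) (abs_nonneg _) this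
  exact ⟨hI.integral_prod_left, hI.integral_prod_right,
    integral_integral_swap (f := fun g s => S.indicator (fun q : ℝ × ℝ => w q.1 * r' q.2) (g, s))
      hI⟩

instance STE_inst : NullSingletonClass g1 := nullSingletonClass_gaussianReal (by norm_num)

/-- the upper tail -/
noncomputable def STE_V (w : ℝ → ℝ) (g : ℝ) : ℝ := ∫ t in Ioi g, w t ∂g1

lemma STE_stk (u : ℝ → ℝ) (M : ℝ) (hu : Measurable u) (hM : ∀ g, |u g| ≤ M) (g : ℝ) :
    gaussianPDFReal 0 1 g * stk u g = STE_V (fun t => u t - ∫ s, u s ∂g1) g := by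
  have hp : gaussianPDFReal 0 1 g ≠ 0 := (gaussianPDFReal_pos 0 1 g (by norm_num)).ne'
  unfold stk STE_V
  split_ifs with h
  · field_simp
  · have hI : Integrable (fun t => u t - ∫ s, u s ∂g1) g1 :=
      (Pool.UMC.Gs.integrable_of_bdd hu hM).sub (integrable_const _)
    have h0 : ∫ t, (u t - ∫ s, u s ∂g1) ∂g1 = 0 := by
      rw [integral_sub (Pool.UMC.Gs.integrable_of_bdd hu hM) (integrable_const _)]
      simp
    have h1 : ∫ t in Iio g, (u t - ∫ s, u s ∂g1) ∂g1 + ∫ t in Ici g, (u t - ∫ s, u s ∂g1) ∂g1 =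
        0 := by
      rw [← h0, ← setIntegral_union (Set.Iio_disjoint_Ici le_rfl) measurableSet_Ici hI.integrableOn hI.integrableOn,
        Iio_union_Ici, setIntegral_univ]
    have h2 : ∫ t in Ici g, (u t - ∫ s, u s ∂g1) ∂g1 = ∫ t in Ioi g, (u t - ∫ s, u s ∂g1) ∂g1 :=
      integral_Ici_eq_integral_Ioi
    rw [h2] at h1
    field_simp
    linarith

theorem sSte : SSte := by
  intro u r r' M hu huM hr hrc hrM
  set ū := ∫ s, u s ∂g1 with hū
  have hM0 : 0 ≤ M := (abs_nonneg _).trans (huM 0)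
  have hubar : |ū| ≤ M := by
    rw [hū, ← Real.norm_eq_abs]
    refine (norm_integral_le_of_norm_le_const (μ := g1) (C := M)
      (Filter.Eventually.of_forall huM)).trans ?_
    simp
  set w : ℝ → ℝ := fun g => u g - ū with hw
  have hwm : Measurable w := hu.sub measurable_const
  have hwM : ∀ g, |w g| ≤ 2 * M := by
    intro g
    calc |u g - ū| ≤ |u g| + |ū| := abs_sub _ _
      _ ≤ 2 * M := by linarith [huM g]
  have hrM' : ∀ g, |r' g| ≤ 2 * M := fun g => (hrM g).trans (by linarith)
  have hIw : Integrable w g1 := Pool.UMC.Gs.integrable_of_bdd hwm hwM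
  have hw0 : ∫ g, w g ∂g1 = 0 := by
    rw [hw, integral_sub (Pool.UMC.Gs.integrable_of_bdd hu huM) (integrable_const _)]
    simp [hū]
  set S1 : Set (ℝ × ℝ) := {q : ℝ × ℝ | 0 < q.2 ∧ q.2 ≤ q.1} with hS1
  set S2 : Set (ℝ × ℝ) := {q : ℝ × ℝ | q.1 < q.2 ∧ q.2 ≤ 0} with hS2
  have hm1 : MeasurableSet S1 :=
    (measurableSet_lt measurable_const measurable_snd).inter
      (measurableSet_le measurable_snd measurable_fst)
  have hm2 : MeasurableSet S2 :=
    (measurableSet_lt measurable_fst measurable_snd).inter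
      (measurableSet_le measurable_snd measurable_const)
  obtain ⟨a1, a2, a3⟩ := STE_swap S1 hm1 STE_fin1 w r' (2 * M) hwm hrc.measurable hwM hrM'
  obtain ⟨b1, b2, b3⟩ := STE_swap S2 hm2 STE_fin2 w r' (2 * M) hwm hrc.measurable hwM hrM'
  -- the fundamental theorem of calculus
  have hftc : ∀ g, r g - r 0 = ∫ s in (0 : ℝ)..g, r' s := by
    intro g
    exact (intervalIntegral.integral_eq_sub_of_hasDerivAt (fun x _ => hr x)
      (hrc.intervalIntegrable _ _)).symm
  have e1 : ∀ g, w g * (r g - r 0) = (∫ s, S1.indicator (fun q => w q.1 * r' q.2) (g, s)) -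
      ∫ s, S2.indicator (fun q => w q.1 * r' q.2) (g, s) := by
    intro g
    have c1 : (fun s => S1.indicator (fun q => w q.1 * r' q.2) (g, s)) =
        (Ioc 0 g).indicator (fun s => w g * r' s) := by
      ext s
      simp only [Set.indicator, hS1, Set.mem_ofPred_eq, Set.mem_Ioc]
    have c2 : (fun s => S2.indicator (fun q => w q.1 * r' q.2) (g, s)) =
        (Ioc g 0).indicator (fun s => w g * r' s) := by
      ext s
      simp only [Set.indicator, hS2, Set.mem_ofPred_eq, Set.mem_Ioc]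
    rw [c1, c2, integral_indicator measurableSet_Ioc, integral_indicator measurableSet_Ioc,
      integral_const_mul, integral_const_mul, hftc g, intervalIntegral]
    ring
  have e2 : ∫ g, w g * r g ∂g1 = ∫ g, w g * (r g - r 0) ∂g1 := by
    have hI2 : Integrable (fun g => w g * (r g - r 0)) g1 := by
      simp_rw [e1]
      exact a1.sub b1
    have : ∀ g, w g * r g = w g * (r g - r 0) + w g * r 0 := fun g => by ring
    simp_rw [this]
    rw [integral_add hI2 (hIw.mul_const _), integral_mul_const, hw0]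
    ring
  have e3 : ∀ s, (∫ g, S1.indicator (fun q => w q.1 * r' q.2) (g, s) ∂g1) -
      (∫ g, S2.indicator (fun q => w q.1 * r' q.2) (g, s) ∂g1) = STE_V w s * r' s := by
    intro s
    by_cases hs : 0 < s
    · have c1 : (fun g => S1.indicator (fun q => w q.1 * r' q.2) (g, s)) =
          (Ici s).indicator (fun g => w g * r' s) := by
        ext g
        simp only [Set.indicator, hS1, Set.mem_ofPred_eq, Set.mem_Ici, hs, true_and]
      have c2 : (fun g => S2.indicator (fun q => w q.1 * r' q.2) (g, s)) = fun _ => 0 := by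
        ext g
        simp only [Set.indicator, hS2, Set.mem_ofPred_eq, not_le.2 hs, and_false, if_false]
      rw [c1, c2, integral_indicator measurableSet_Ici, integral_mul_const,
        integral_Ici_eq_integral_Ioi]
      simp [STE_V]
    · have c1 : (fun g => S1.indicator (fun q => w q.1 * r' q.2) (g, s)) = fun _ => 0 := by
        ext g
        simp only [Set.indicator, hS1, Set.mem_ofPred_eq, hs, false_and, if_false]
      have c2 : (fun g => S2.indicator (fun q => w q.1 * r' q.2) (g, s)) =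
          (Iio s).indicator (fun g => w g * r' s) := by
        ext g
        simp only [Set.indicator, hS2, Set.mem_ofPred_eq, not_lt.1 hs, and_true, Set.mem_Iio]
      rw [c1, c2, integral_indicator measurableSet_Iio, integral_mul_const]
      have h1 : ∫ t in Iio s, w t ∂g1 + ∫ t in Ici s, w t ∂g1 = 0 := by
        rw [← hw0, ← setIntegral_union (Set.Iio_disjoint_Ici le_rfl) measurableSet_Ici hIw.integrableOn hIw.integrableOn,
          Iio_union_Ici, setIntegral_univ]
      rw [integral_Ici_eq_integral_Ioi] at h1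
      have h2 : ∫ t in Iio s, w t ∂g1 = - STE_V w s := by
        unfold STE_V
        linarith
      rw [h2]
      simp
  calc ∫ g, (u g - ū) * r g ∂g1 = ∫ g, w g * r g ∂g1 := rfl
    _ = ∫ g, w g * (r g - r 0) ∂g1 := e2
    _ = (∫ g, (∫ s, S1.indicator (fun q => w q.1 * r' q.2) (g, s)) ∂g1) -
        ∫ g, (∫ s, S2.indicator (fun q => w q.1 * r' q.2) (g, s)) ∂g1 := by
          simp_rw [e1]
          exact integral_sub a1 b1
    _ = (∫ s, (∫ g, S1.indicator (fun q => w q.1 * r' q.2) (g, s) ∂g1)) -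
        ∫ s, (∫ g, S2.indicator (fun q => w q.1 * r' q.2) (g, s) ∂g1) := by rw [a3, b3]
    _ = ∫ s, STE_V w s * r' s := by
          rw [← integral_sub a2 b2]
          simp_rw [e3]
    _ = ∫ g, stk u g * r' g ∂g1 := by
          rw [integral_gaussianReal_eq_integral_smul (by norm_num)]
          refine integral_congr_ae (Filter.Eventually.of_forall fun s => ?_)
          simp only [smul_eq_mul]
          rw [← mul_assoc, STE_stk u M hu huM s]

end Pool.UMD
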