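import Pool.Agent.H37.UMD.Stmts
import Pool.Agent.H23.UMC.Rot

set_option autoImplicit false

open MeasureTheory ProbabilityTheory Set

namespace Pool.UMD

lemma STP_dot_add (x y z : ℝ × ℝ) : dot x (y + z) = dot x y + dot x z := by
  simp only [dot, Prod.fst_add, Prod.snd_add]
  ring

lemma STP_tr_con (A : Mat) (e p : ℝ × ℝ) : (A.con e).tr p = rap e (A.tr p) := by
  unfold Mat.con Mat.tr rap dot
  ext <;> simp only <;> ring

lemma STP_rap_rap (e x y : ℝ × ℝ) (he : e.1 ^ 2 + e.2 ^ 2 = 1) :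
    dot (rap e x) (rap e y) = dot x y - 3 / 4 * (dot e x * dot e y) := by
  unfold rap dot
  simp only
  linear_combination ((e.1 * x.1 + e.2 * x.2) * (e.1 * y.1 + e.2 * y.2) / 4) * he

lemma STP_dot_stp (A : Mat) (e p : ℝ × ℝ) : dot (A.stp e) p = √3 / 2 * dot e (A.tr p) := by
  unfold Mat.stp Mat.ap Mat.tr dot
  simp only
  ring

lemma STP_nm_sq (x : ℝ × ℝ) : nm x ^ 2 = x.1 ^ 2 + x.2 ^ 2 := by
  unfold nm
  rw [Real.sq_sqrt (by positivity)]

lemma STP_nm_nonneg (x : ℝ × ℝ) : 0 ≤ nm x := Real.sqrt_nonneg _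

lemma STP_abs_dot_e (e x : ℝ × ℝ) (he : e.1 ^ 2 + e.2 ^ 2 = 1) : |dot e x| ≤ nm x := by
  refine abs_le_of_sq_le_sq ?_ (STP_nm_nonneg x)
  rw [STP_nm_sq]
  unfold dot
  nlinarith [sq_nonneg (e.1 * x.2 - e.2 * x.1)]

lemma STP_nm_rap (e x : ℝ × ℝ) (he : e.1 ^ 2 + e.2 ^ 2 = 1) : nm (rap e x) ≤ nm x := by
  refine le_of_sq_le_sq ?_ (STP_nm_nonneg x)
  have h1 := STP_rap_rap e x x he
  have h2 : nm (rap e x) ^ 2 = dot (rap e x) (rap e x) := by
    rw [STP_nm_sq]
    unfold dot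
    ring
  rw [h2, h1, STP_nm_sq]
  have : dot x x = x.1 ^ 2 + x.2 ^ 2 := by unfold dot; ring
  rw [this]
  nlinarith [mul_self_nonneg (dot e x)]

lemma STP_fst_le (x : ℝ × ℝ) : |x.1| ≤ nm x := by
  refine abs_le_of_sq_le_sq ?_ (STP_nm_nonneg x)
  rw [STP_nm_sq]
  nlinarith [sq_nonneg x.2]

lemma STP_snd_le (x : ℝ × ℝ) : |x.2| ≤ nm x := by
  refine abs_le_of_sq_le_sq ?_ (STP_nm_nonneg x)
  rw [STP_nm_sq]
  nlinarith [sq_nonneg x.1]

lemma STP_abs_dot (x y : ℝ × ℝ) : |dot x y| ≤ (|x.1| + |x.2|) * nm y := by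
  unfold dot
  calc |x.1 * y.1 + x.2 * y.2| ≤ |x.1 * y.1| + |x.2 * y.2| := abs_add_le _ _
    _ = |x.1| * |y.1| + |x.2| * |y.2| := by rw [abs_mul, abs_mul]
    _ ≤ |x.1| * nm y + |x.2| * nm y := by
        gcongr
        · exact STP_fst_le y
        · exact STP_snd_le y
    _ = _ := by ring

/-- bounded and measurable on the line -/
def STP_B (f : ℝ → ℝ) : Prop := Measurable f ∧ ∃ M, ∀ g, |f g| ≤ M

lemma STP_B.int {f : ℝ → ℝ} (h : STP_B f) : Integrable f g1 := by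
  obtain ⟨h1, M, h2⟩ := h
  exact Pool.UMC.Gs.integrable_of_bdd h1 h2

lemma STP_B.add {f h : ℝ → ℝ} (hf : STP_B f) (hh : STP_B h) : STP_B (fun g => f g + h g) := by
  obtain ⟨h1, M, h2⟩ := hf
  obtain ⟨h3, N, h4⟩ := hh
  exact ⟨h1.add h3, M + N, fun g => (abs_add_le _ _).trans (add_le_add (h2 g) (h4 g))⟩

lemma STP_B.sub {f h : ℝ → ℝ} (hf : STP_B f) (hh : STP_B h) : STP_B (fun g => f g - h g) := by
  obtain ⟨h1, M, h2⟩ := hf
  obtain ⟨h3, N, h4⟩ := hh
  exact ⟨h1.sub h3, M + N, fun g => (abs_sub _ _).trans (add_le_add (h2 g) (h4 g))⟩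

lemma STP_B.mul {f h : ℝ → ℝ} (hf : STP_B f) (hh : STP_B h) : STP_B (fun g => f g * h g) := by
  obtain ⟨h1, M, h2⟩ := hf
  obtain ⟨h3, N, h4⟩ := hh
  refine ⟨h1.mul h3, M * N, fun g => ?_⟩
  rw [abs_mul]
  exact mul_le_mul (h2 g) (h4 g) (abs_nonneg _) ((abs_nonneg _).trans (h2 g))

lemma STP_B.const (c : ℝ) : STP_B (fun _ => c) := ⟨measurable_const, |c|, fun _ => le_rfl⟩

lemma STP_B.abs {f : ℝ → ℝ} (hf : STP_B f) : STP_B (fun g => |f g|) := by
  obtain ⟨h1, M, h2⟩ := hf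
  exact ⟨h1.norm, M, fun g => by rw [abs_abs]; exact h2 g⟩

lemma STP_B.of_le {f h : ℝ → ℝ} (hf : Measurable f) (hh : STP_B h) (hfh : ∀ g, |f g| ≤ h g) :
    STP_B f := by
  obtain ⟨h3, N, h4⟩ := hh
  exact ⟨hf, N, fun g => (hfh g).trans ((le_abs_self _).trans (h4 g))⟩

lemma STP_lin4 {f1 f2 f3 f4 : ℝ → ℝ} (h1 : Integrable f1 g1) (h2 : Integrable f2 g1)
    (h3 : Integrable f3 g1) (h4 : Integrable f4 g1) (c2 c3 c4 : ℝ) :
    ∫ g, (f1 g - c2 * f2 g - c3 * f3 g + c4 * f4 g) ∂g1 =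
      ∫ g, f1 g ∂g1 - c2 * ∫ g, f2 g ∂g1 - c3 * ∫ g, f3 g ∂g1 + c4 * ∫ g, f4 g ∂g1 := by
  have e1 : ∫ g, (f1 g - c2 * f2 g - c3 * f3 g + c4 * f4 g) ∂g1 =
      ∫ g, (f1 g - c2 * f2 g - c3 * f3 g) ∂g1 + ∫ g, c4 * f4 g ∂g1 :=
    integral_add ((h1.sub (h2.const_mul c2)).sub (h3.const_mul c3)) (h4.const_mul c4)
  have e2 : ∫ g, (f1 g - c2 * f2 g - c3 * f3 g) ∂g1 =
      ∫ g, (f1 g - c2 * f2 g) ∂g1 - ∫ g, c3 * f3 g ∂g1 :=
    integral_sub (h1.sub (h2.const_mul c2)) (h3.const_mul c3)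
  have e3 : ∫ g, (f1 g - c2 * f2 g) ∂g1 = ∫ g, f1 g ∂g1 - ∫ g, c2 * f2 g ∂g1 :=
    integral_sub h1 (h2.const_mul c2)
  rw [e1, e2, e3, integral_const_mul, integral_const_mul, integral_const_mul]

lemma STP_lin5 {f1 f2 f3 f4 f5 : ℝ → ℝ} (h1 : Integrable f1 g1) (h2 : Integrable f2 g1)
    (h3 : Integrable f3 g1) (h4 : Integrable f4 g1) (h5 : Integrable f5 g1) (c3 c4 : ℝ) :
    ∫ g, (f1 g - f2 g - (f3 g * c3 + f4 g * c4) + f5 g) ∂g1 =
      ∫ g, f1 g ∂g1 - ∫ g, f2 g ∂g1 - ((∫ g, f3 g ∂g1) * c3 + (∫ g, f4 g ∂g1) * c4) +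
      ∫ g, f5 g ∂g1 := by
  have e1 : ∫ g, (f1 g - f2 g - (f3 g * c3 + f4 g * c4) + f5 g) ∂g1 =
      ∫ g, (f1 g - f2 g - (f3 g * c3 + f4 g * c4)) ∂g1 + ∫ g, f5 g ∂g1 :=
    integral_add ((h1.sub h2).sub ((h3.mul_const c3).add (h4.mul_const c4))) h5
  have e2 : ∫ g, (f1 g - f2 g - (f3 g * c3 + f4 g * c4)) ∂g1 =
      ∫ g, (f1 g - f2 g) ∂g1 - ∫ g, (f3 g * c3 + f4 g * c4) ∂g1 :=
    integral_sub (h1.sub h2) ((h3.mul_const c3).add (h4.mul_const c4))
  have e3 : ∫ g, (f1 g - f2 g) ∂g1 = ∫ g, f1 g ∂g1 - ∫ g, f2 g ∂g1 := integral_sub h1 h2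
  have e4 : ∫ g, (f3 g * c3 + f4 g * c4) ∂g1 = ∫ g, f3 g * c3 ∂g1 + ∫ g, f4 g * c4 ∂g1 :=
    integral_add (h3.mul_const c3) (h4.mul_const c4)
  rw [e1, e2, e3, e4, integral_mul_const, integral_mul_const]

theorem sStp (hRef : SRef) (hRfz : SRfz) (hMmu : SMmu) (hMst : SMst) (hDer : SDer) (hCnt : SCnt)
    (hSte : SSte) : SStp := by
  intro W G G1 G2 M T hW hG a A e hdet he
  set v := A.stp e with hv
  set A' := A.con e with hA'
  have hT0 : 0 ≤ T := (abs_nonneg _).trans (hG.b0 0)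
  have hM0 : 0 ≤ M := (abs_nonneg _).trans (hW.2 0)
  have bG : Bd G T := ⟨hG.c0.measurable, hG.b0⟩
  have bG1 : Bd G1 T := ⟨hG.c1.measurable, hG.b1⟩
  have bG2 : Bd G2 T := ⟨hG.c2.measurable, hG.b2⟩
  have bWG : Bd (fun x => W x * G x) (M * T) :=
    ⟨hW.1.mul bG.1, fun x => by
      rw [abs_mul]
      exact mul_le_mul (hW.2 x) (hG.b0 x) (abs_nonneg _) hM0⟩
  have hlin : Measurable (fun g : ℝ => a + g • v) := by fun_prop
  have cmp : ∀ f : ℝ × ℝ → ℝ, ∀ N, Bd f N → STP_B (fun g => f (a + g • v)) := fun f N hf =>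
    ⟨hf.1.comp hlin, N, fun g => hf.2 _⟩
  have Bw : STP_B (fun g => mu W (a + g • v) A') := cmp _ _ (hMmu W M hW A').1
  have Bg : STP_B (fun g => mu G (a + g • v) A') := cmp _ _ (hMmu G T bG A').1
  have Bwg : STP_B (fun g => mu (fun x => W x * G x) (a + g • v) A') :=
    cmp _ _ (hMmu _ _ bWG A').1
  have B1 : STP_B (fun g => mu G1 (a + g • v) A') := cmp _ _ (hMmu G1 T bG1 A').1
  have B2 : STP_B (fun g => mu G2 (a + g • v) A') := cmp _ _ (hMmu G2 T bG2 A').1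
  have Bz1 : STP_B (fun g => (mz W (a + g • v) A').1) := cmp _ _ (hMmu W M hW A').2.1
  have Bz2 : STP_B (fun g => (mz W (a + g • v) A').2) := cmp _ _ (hMmu W M hW A').2.2
  obtain ⟨z1, z2, z3⟩ := hRfz W M hW a A e he
  have rW := hRef W M hW a A e he
  have rG := hRef G T bG a A e he
  have rWG := hRef _ _ bWG a A e he
  have r1 := hRef G1 T bG1 a A e he
  have r2 := hRef G2 T bG2 a A e he
  rw [← hv, ← hA'] at z1 z2 z3 rW rG rWG r1 r2
  set P := gp G1 G2 a A with hP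
  -- the Stein kernel
  set w : ℝ → ℝ := fun g => mu W (a + g • v) A' with hw
  obtain ⟨hs1, hs2⟩ := hMst (fun _ t => w t) M
    ((Bw.1.comp measurable_snd : Measurable (fun q : (ℝ × ℝ) × ℝ => w q.2)))
    (fun _ t => (hMmu W M hW A').1.2 _)
  have Bst : STP_B (fun g => stk w g) :=
    ⟨hs1.comp (measurable_const.prodMk measurable_id : Measurable (fun g : ℝ => ((0 : ℝ × ℝ), g))),
      3 * M, fun g => hs2 0 g⟩
  set dl : ℝ → ℝ × ℝ := fun g => gp G1 G2 (a + g • v) A' - P with hdl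
  have Bd1 : STP_B (fun g => (dl g).1) := B1.sub (STP_B.const P.1)
  have Bd2 : STP_B (fun g => (dl g).2) := B2.sub (STP_B.const P.2)
  set r' : ℝ → ℝ := fun g => dot v (dl g) with hr'
  have Br' : STP_B r' := ((STP_B.const v.1).mul Bd1).add ((STP_B.const v.2).mul Bd2)
  set r : ℝ → ℝ := fun g => mu G (a + g • v) A' - g * dot v P with hr
  have hder : ∀ g, HasDerivAt r (r' g) g := by
    intro g
    have h1 := hDer G G1 G2 T hG a v A' g
    have h2 : HasDerivAt (fun g : ℝ => g * dot v P) (1 * dot v P) g :=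
      (hasDerivAt_id g).mul_const _
    have h3 := h1.sub h2
    refine h3.congr_deriv ?_
    simp only [hr', hdl, dot, gp, Prod.fst_sub, Prod.snd_sub]
    ring
  have hcont : Continuous r' := by
    have c1 : Continuous (fun g : ℝ => mu G1 (a + g • v) A') :=
      (hCnt G1 T hG.c1 hG.b1 A').comp (by fun_prop)
    have c2 : Continuous (fun g : ℝ => mu G2 (a + g • v) A') :=
      (hCnt G2 T hG.c2 hG.b2 A').comp (by fun_prop)
    simp only [hr', hdl, dot, gp, Prod.fst_sub, Prod.snd_sub]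
    fun_prop
  obtain ⟨_, N, hN⟩ := Br'
  have Br' : STP_B r' := ((STP_B.const v.1).mul Bd1).add ((STP_B.const v.2).mul Bd2)
  have hste := hSte w r r' (max M N) Bw.1
    (fun g => ((hMmu W M hW A').1.2 _).trans (le_max_left _ _)) hder hcont
    (fun g => (hN g).trans (le_max_right _ _))
  rw [← rW] at hste
  -- left hand side of Stein
  have hgI : Integrable (fun g : ℝ => g * w g) g1 :=
    Integrable.mul_bdd (c := M) Pool.UMC.Gs.integrable_id_gam Bw.1.aestronglyMeasurable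
      (Filter.Eventually.of_forall fun g => (hMmu W M hW A').1.2 _)
  have hgI0 : Integrable (fun g : ℝ => g) g1 := Pool.UMC.Gs.integrable_id_gam
  have hl : ∫ g, (w g - mu W a A) * r g ∂g1 =
      ∫ g, w g * mu G (a + g • v) A' ∂g1 - mu W a A * mu G a A -
        dot v P * (√3 / 2 * dot e (mz W a A)) := by
    have e1 : ∀ g, (w g - mu W a A) * r g = w g * mu G (a + g • v) A' -
        mu W a A * mu G (a + g • v) A' - dot v P * (g * w g) + mu W a A * dot v P * g := by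
      intro g
      simp only [hr]
      ring
    simp_rw [e1]
    rw [STP_lin4 (Bw.mul Bg).int Bg.int hgI hgI0, ← rG, z3, Pool.UMC.Gs.integral_id_gam]
    ring
  rw [hl] at hste
  -- the identity
  set H : ℝ → ℝ := fun g => stk w g * r' g + dot (mz W (a + g • v) A') (A'.tr (dl g)) with hH
  have Btr : STP_B (fun g => dot (mz W (a + g • v) A') (A'.tr (dl g))) := by
    unfold dot Mat.tr
    exact (Bz1.mul (((STP_B.const A'.a).mul Bd1).add ((STP_B.const A'.c).mul Bd2))).add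
      (Bz2.mul (((STP_B.const A'.b).mul Bd1).add ((STP_B.const A'.d).mul Bd2)))
  have BH : STP_B H := (Bst.mul Br').add Btr
  have BR : STP_B (fun g => Rr W G G1 G2 (a + g • v) A') := by
    unfold Rr dot Mat.tr gp
    exact (Bwg.sub (Bw.mul Bg)).sub
      ((Bz1.mul (((STP_B.const A'.a).mul B1).add ((STP_B.const A'.c).mul B2))).add
      (Bz2.mul (((STP_B.const A'.b).mul B1).add ((STP_B.const A'.d).mul B2))))
  have hid : Rr W G G1 G2 a A = ∫ g, Rr W G G1 G2 (a + g • v) A' ∂g1 + ∫ g, H g ∂g1 := by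
    have e1 : ∀ g, Rr W G G1 G2 (a + g • v) A' + H g =
        mu (fun x => W x * G x) (a + g • v) A' - w g * mu G (a + g • v) A' -
        ((mz W (a + g • v) A').1 * (A'.tr P).1 + (mz W (a + g • v) A').2 * (A'.tr P).2) +
        stk w g * r' g := by
      intro g
      simp only [hH, Rr, hdl, dot, Mat.tr, Prod.fst_sub, Prod.snd_sub, hw]
      ring
    rw [← integral_add BR.int BH.int]
    simp_rw [e1]
    rw [STP_lin5 Bwg.int (Bw.mul Bg).int Bz1.int Bz2.int (Bst.mul Br').int, z1, z2, ← rWG,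
      ← hste, STP_dot_stp]
    have h1 : (rap e (mz W a A)).1 * (A'.tr P).1 + (rap e (mz W a A)).2 * (A'.tr P).2 =
        dot (mz W a A) (A.tr P) - 3 / 4 * (dot e (mz W a A) * dot e (A.tr P)) := by
      rw [← STP_rap_rap e _ _ he, ← STP_tr_con]
      rfl
    rw [h1]
    have h3 : √3 * √3 = 3 := Real.mul_self_sqrt (by norm_num)
    unfold Rr
    linear_combination ((dot e (mz W a A) * dot e (A.tr P)) / 4) * h3
  -- the estimate
  rw [hid]
  refine (abs_add_le _ _).trans (add_le_add ?_ ?_)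
  · exact abs_integral_le_integral_abs
  refine abs_integral_le_integral_abs.trans ?_
  have hpt : ∀ g, |H g| ≤ √(TA A (dl g)) *
      (|xi0 W a A e g| + |xi1 W a A e g| + |xi2 W a A e g|) := by
    intro g
    have hsd : 0 < √A.det := Real.sqrt_pos.2 hdet
    have hTA : √(TA A (dl g)) = nm (A.tr (dl g)) / √A.det := by
      unfold TA
      rw [Real.sqrt_div (sq_nonneg _), Real.sqrt_sq (STP_nm_nonneg _)]
    have h0 : √(TA A (dl g)) * |xi0 W a A e g| = nm (A.tr (dl g)) * |stk w g| := by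
      rw [hTA]
      unfold xi0
      rw [abs_mul, abs_of_pos hsd, ← hv, ← hA', ← hw]
      field_simp
    have h1 : √(TA A (dl g)) * |xi1 W a A e g| =
        nm (A.tr (dl g)) * |(mz W (a + g • v) A').1| := by
      rw [hTA]
      unfold xi1
      rw [abs_mul, abs_of_pos hsd, ← hv, ← hA']
      field_simp
    have h2 : √(TA A (dl g)) * |xi2 W a A e g| =
        nm (A.tr (dl g)) * |(mz W (a + g • v) A').2| := by
      rw [hTA]
      unfold xi2
      rw [abs_mul, abs_of_pos hsd, ← hv, ← hA']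
      field_simp
    rw [mul_add, mul_add, h0, h1, h2]
    have k1 : |stk w g * r' g| ≤ nm (A.tr (dl g)) * |stk w g| := by
      rw [abs_mul, mul_comm (nm _)]
      refine mul_le_mul_of_nonneg_left ?_ (abs_nonneg _)
      simp only [hr']
      rw [STP_dot_stp, abs_mul, abs_of_nonneg (by positivity)]
      have h3 : √3 ≤ 2 := by
        rw [Real.sqrt_le_left (by norm_num)]
        norm_num
      calc √3 / 2 * |dot e (A.tr (dl g))| ≤ 1 * |dot e (A.tr (dl g))| := by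
            refine mul_le_mul_of_nonneg_right ?_ (abs_nonneg _)
            linarith
        _ ≤ nm (A.tr (dl g)) := by
            rw [one_mul]
            exact STP_abs_dot_e _ _ he
    have k2 : |dot (mz W (a + g • v) A') (A'.tr (dl g))| ≤
        nm (A.tr (dl g)) * |(mz W (a + g • v) A').1| +
        nm (A.tr (dl g)) * |(mz W (a + g • v) A').2| := by
      refine (STP_abs_dot _ _).trans ?_
      rw [hA', STP_tr_con]
      have := STP_nm_rap e (A.tr (dl g)) he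
      nlinarith [abs_nonneg (mz W (a + g • v) (A.con e)).1,
        abs_nonneg (mz W (a + g • v) (A.con e)).2]
    calc |H g| ≤ |stk w g * r' g| + |dot (mz W (a + g • v) A') (A'.tr (dl g))| := abs_add_le _ _
      _ ≤ _ := by linarith
  refine integral_mono_of_nonneg (Filter.Eventually.of_forall fun g => abs_nonneg _) ?_
    (Filter.Eventually.of_forall hpt)
  have hx : ∀ g, √(TA A (dl g)) * (|xi0 W a A e g| + |xi1 W a A e g| + |xi2 W a A e g|) =
      nm (A.tr (dl g)) * (|stk w g| + |(mz W (a + g • v) A').1| + |(mz W (a + g • v) A').2|) := by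
    intro g
    have hsd : 0 < √A.det := Real.sqrt_pos.2 hdet
    have hTA : √(TA A (dl g)) = nm (A.tr (dl g)) / √A.det := by
      unfold TA
      rw [Real.sqrt_div (sq_nonneg _), Real.sqrt_sq (STP_nm_nonneg _)]
    rw [hTA]
    unfold xi0 xi1 xi2
    rw [abs_mul, abs_mul, abs_mul, abs_of_pos hsd, ← hv, ← hA', ← hw]
    field_simp
  have Bnm : STP_B (fun g => nm (A.tr (dl g))) := by
    refine STP_B.of_le (h := fun g => (|A.a| * |(dl g).1| + |A.c| * |(dl g).2|) +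
      (|A.b| * |(dl g).1| + |A.d| * |(dl g).2|)) ?_ ?_ ?_
    · unfold nm Mat.tr
      have := Bd1.1
      have := Bd2.1
      fun_prop
    · exact (((STP_B.const _).mul Bd1.abs).add ((STP_B.const _).mul Bd2.abs)).add
        (((STP_B.const _).mul Bd1.abs).add ((STP_B.const _).mul Bd2.abs))
    · intro g
      rw [abs_of_nonneg (STP_nm_nonneg _)]
      have h1 : nm (A.tr (dl g)) ≤ |(A.tr (dl g)).1| + |(A.tr (dl g)).2| := by
        refine le_of_sq_le_sq ?_ (by positivity)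
        rw [STP_nm_sq]
        nlinarith [abs_nonneg (A.tr (dl g)).1, abs_nonneg (A.tr (dl g)).2,
          sq_abs (A.tr (dl g)).1, sq_abs (A.tr (dl g)).2,
          mul_nonneg (abs_nonneg (A.tr (dl g)).1) (abs_nonneg (A.tr (dl g)).2)]
      refine h1.trans (add_le_add ?_ ?_)
      · unfold Mat.tr
        refine (abs_add_le _ _).trans ?_
        rw [abs_mul, abs_mul]
      · unfold Mat.tr
        refine (abs_add_le _ _).trans ?_
        rw [abs_mul, abs_mul]
  exact (Bnm.mul ((Bst.abs.add Bz1.abs).add Bz2.abs)).int.congr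
    (Filter.Eventually.of_forall fun g => (hx g).symm)

end Pool.UMD
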